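import Mathlib

namespace Pool.Agent.H.MP_5a868e_co
open MvPolynomial UniqueFactorizationMonoid

abbrev R := MvPolynomial ℕ ℚ

noncomputable def F (f : R) : Multiset R :=
  letI : StrongNormalizationMonoid R := UniqueFactorizationMonoid.strongNormalizationMonoid
  normalizedFactors f

def NP (p : R) : Prop :=
  letI : StrongNormalizationMonoid R := UniqueFactorizationMonoid.strongNormalizationMonoid
  Irreducible p ∧ normalize p = p

lemma F_mul {x y : R} (hx : x ≠ 0) (hy : y ≠ 0) : F (x * y) = F x + F y := by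
  let : StrongNormalizationMonoid R := UniqueFactorizationMonoid.strongNormalizationMonoid
  exact normalizedFactors_mul hx hy

lemma mem_F {x p : R} (hx : x ≠ 0) : p ∈ F x ↔ NP p ∧ p ∣ x := by
  letI : StrongNormalizationMonoid R := UniqueFactorizationMonoid.strongNormalizationMonoid
  have := mem_normalizedFactors_iff' (p := p) hx
  unfold F NP
  rw [this]; tauto

lemma prod_F {x : R} (hx : x ≠ 0) : Associated (F x).prod x := by
  let : StrongNormalizationMonoid R := UniqueFactorizationMonoid.strongNormalizationMonoid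
  exact prod_normalizedFactors hx

lemma NP.prime {p : R} (h : NP p) : Prime p := h.1.prime

lemma deg_le_of_dvd {p f : R} (a : ℕ) (hf : f ≠ 0) (h : p ∣ f) : degreeOf a p ≤ degreeOf a f := by
  obtain ⟨w, rfl⟩ := h
  rw [degreeOf_mul_eq (left_ne_zero_of_mul hf) (right_ne_zero_of_mul hf)]; omega

lemma deg_prod (a : ℕ) (M : Multiset R) (h : ∀ p ∈ M, p ≠ 0) :
    degreeOf a M.prod = (M.map (degreeOf a)).sum := by
  induction M using Multiset.induction_on with
  | empty => simp
  | cons p M ih =>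
    have h1 : p ≠ 0 := h p (by simp)
    have h2 : ∀ q ∈ M, q ≠ 0 := fun q hq => h q (by simp [hq])
    rw [Multiset.prod_cons, degreeOf_mul_eq h1 (Multiset.prod_ne_zero (fun h0 => h2 0 h0 rfl)), ih h2]
    simp

lemma deg_F (a : ℕ) {f : R} (hf : f ≠ 0) : ((F f).map (degreeOf a)).sum = degreeOf a f := by
  have h0 : ∀ p ∈ F f, p ≠ 0 := fun p hp => ((mem_F hf).1 hp).1.prime.ne_zero
  rw [← deg_prod a _ h0]
  have h := prod_F hf
  have hp : (F f).prod ≠ 0 := Multiset.prod_ne_zero (fun h1 => h0 0 h1 rfl)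
  exact le_antisymm (deg_le_of_dvd a hf h.dvd) (deg_le_of_dvd a hp h.symm.dvd)

/-- number of members containing the variable `a` -/
noncomputable def kap (a : ℕ) (M : Multiset R) : ℕ := M.countP (fun p => degreeOf a p ≠ 0)

lemma kap_le_sum (a : ℕ) (M : Multiset R) : kap a M ≤ (M.map (degreeOf a)).sum := by
  induction M using Multiset.induction_on with
  | empty => simp [kap]
  | cons p M ih =>
    unfold kap at *
    rw [Multiset.countP_cons]
    simp only [Multiset.map_cons, Multiset.sum_cons]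
    split_ifs with h <;> omega

lemma kap_F_le (a : ℕ) {f : R} (hf : f ≠ 0) : kap a (F f) ≤ degreeOf a f := by
  rw [← deg_F a hf]; exact kap_le_sum a _

lemma exists_factor (a : ℕ) {f : R} (hf : f ≠ 0) (h : degreeOf a f ≠ 0) :
    ∃ p ∈ F f, degreeOf a p ≠ 0 := by
  by_contra hc
  push Not at hc
  apply h
  rw [← deg_F a hf]
  apply Multiset.sum_eq_zero
  intro n hn
  obtain ⟨p, hp, rfl⟩ := Multiset.mem_map.1 hn
  exact hc p hp

lemma kap_pos (a : ℕ) {f : R} (hf : f ≠ 0) (h : degreeOf a f ≠ 0) : 0 < kap a (F f) := by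
  unfold kap
  rw [Multiset.countP_pos]
  exact exists_factor a hf h

lemma kap_mono (a : ℕ) {M N : Multiset R} (h : M ≤ N) : kap a M ≤ kap a N :=
  Multiset.countP_le_of_le _ h

lemma kap_add (a : ℕ) (M N : Multiset R) : kap a (M + N) = kap a M + kap a N :=
  Multiset.countP_add _ _ _

lemma exists_var {p : R} (h : NP p) : ∃ a, degreeOf a p ≠ 0 := by
  by_contra hc
  push Not at hc
  have hv : p.vars = ∅ := by
    ext a; simp [mem_vars_iff_degreeOf_ne_zero, hc a]
  have hC : p = C (p.coeff 0) := by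
    have : p.totalDegree = 0 := by
      rw [totalDegree_eq_zero_iff]
      intro m hm i
      by_contra hne
      have : i ∈ p.vars := (mem_vars_iff_mem_support i).2 ⟨m, hm, by simpa using hne⟩
      simp [hv] at this
    exact totalDegree_eq_zero_iff_eq_C.1 this
  apply h.1.not_isUnit
  rw [hC]
  have : p.coeff 0 ≠ 0 := by
    intro h0; rw [h0] at hC; exact h.prime.ne_zero (by simpa using hC)
  exact (IsUnit.mk0 _ this).map C

/-- the key algebraic step -/
lemma key {p x y u : R} {a b : ℕ} (hp : Prime p) (hbp : degreeOf b p = 0) (hbx : degreeOf b x = 0)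
    (hpx : ¬ p ∣ x) (hpxy : p ∣ x + y) (huy : u ∣ y) (hbu : degreeOf b u ≠ 0)
    (hap : degreeOf a p ≠ 0) : degreeOf a u ≠ 0 := by
  classical
  intro hau
  let I : Ideal R := Ideal.span {p}
  haveI : I.IsPrime := (Ideal.span_singleton_prime hp.ne_zero).2 hp
  let mk : R →+* R ⧸ I := Ideal.Quotient.mk I
  let ψ : R →+* Polynomial (R ⧸ I) :=
    eval₂Hom ((Polynomial.C.comp mk).comp C)
      (fun i => if i = b then Polynomial.X else Polynomial.C (mk (X i)))
  have hψ : ∀ f : R, degreeOf b f = 0 → ψ f = Polynomial.C (mk f) := by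
    intro f hf
    have hb : b ∉ f.vars := by simp [mem_vars_iff_degreeOf_ne_zero, hf]
    let χ : R →+* Polynomial (R ⧸ I) := Polynomial.C.comp mk
    have := hom_congr_vars (S := Polynomial (R ⧸ I)) (f₁ := ψ) (f₂ := χ) (p₁ := f) (p₂ := f)
      (by refine RingHom.ext fun r => ?_; simp [ψ, χ]) (by
        intro i hi _
        have : i ≠ b := fun h => hb (h ▸ hi)
        simp [ψ, χ, this]) rfl
    simpa [χ] using this
  have hmkp : mk p = 0 := Ideal.Quotient.eq_zero_iff_mem.2 (Ideal.mem_span_singleton_self p)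
  have hmkx : mk x ≠ 0 := fun h => hpx (Ideal.mem_span_singleton.1 (Ideal.Quotient.eq_zero_iff_mem.1 h))
  obtain ⟨w, rfl⟩ := huy
  obtain ⟨z, hz⟩ := hpxy
  have h1 : ψ u * ψ w = Polynomial.C (- mk x) := by
    have : ψ (x + u * w) = 0 := by rw [hz, map_mul, hψ p hbp, hmkp]; simp
    rw [map_add, map_mul, hψ x hbx] at this
    rw [map_neg]; linear_combination this
  have hne : ψ u * ψ w ≠ 0 := by rw [h1]; simpa using hmkx
  have h2 : (ψ u).natDegree = 0 := by
    have := Polynomial.natDegree_mul (left_ne_zero_of_mul hne) (right_ne_zero_of_mul hne)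
    rw [h1, Polynomial.natDegree_C] at this; omega
  obtain ⟨c, hc⟩ := Polynomial.natDegree_eq_zero.1 h2
  let g : ℕ → R := fun i => if i = b then 0 else X i
  have e1 : (Polynomial.evalRingHom (mk (X b))).comp ψ = mk := by
    apply MvPolynomial.ringHom_ext
    · intro r; simp [ψ]
    · intro i; by_cases h : i = b <;> simp [ψ, h]
  have e2 : (Polynomial.evalRingHom 0).comp ψ = mk.comp (bind₁ g).toRingHom := by
    apply MvPolynomial.ringHom_ext
    · intro r; simp [ψ]
    · intro i; by_cases h : i = b <;> simp [ψ, h, g]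
  have f1 : mk u = c := by
    rw [← e1]; simp [← hc]
  have f2 : mk (bind₁ g u) = c := by
    have := congrArg (fun φ : R →+* R ⧸ I => φ u) e2
    simp only [RingHom.comp_apply, ← hc] at this
    simpa using this.symm
  have hdvd : p ∣ u - bind₁ g u := by
    rw [← Ideal.mem_span_singleton, ← Ideal.Quotient.eq_zero_iff_mem]
    change mk _ = 0
    rw [map_sub, f1, f2, sub_self]
  have hv : ∀ j, degreeOf j (bind₁ g u) ≠ 0 → j ≠ b ∧ degreeOf j u ≠ 0 := by
    intro j hj
    obtain ⟨i, hi, hji⟩ := mem_vars_bind₁ g u (mem_vars_iff_degreeOf_ne_zero.2 hj)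
    by_cases h : i = b
    · simp [g, h] at hji
    · simp only [g, h, if_false, vars_X, Finset.mem_singleton] at hji
      subst hji
      exact ⟨h, mem_vars_iff_degreeOf_ne_zero.1 hi⟩
  have hδ : u - bind₁ g u ≠ 0 := by
    intro h
    have h' : u = bind₁ g u := sub_eq_zero.1 h
    rw [h'] at hbu
    exact (hv b hbu).1 rfl
  have h3 := deg_le_of_dvd a hδ hdvd
  have h4 := degreeOf_sub_le a u (bind₁ g u)
  have h5 : degreeOf a (bind₁ g u) = 0 := by
    by_contra h; exact (hv a h).2 hau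
  rw [hau, h5] at h4
  simp at h4
  omega

def Q (c : ℕ) (f : R) (r : ℕ) : Prop :=
  ∃ E ≤ F f, (F f).card ≤ E.card + r ∧ ∀ a, kap a E ≤ c

noncomputable def rho (c : ℕ) (f : R) : ℕ := sInf {r | Q c f r}

lemma Q_rho (c : ℕ) (f : R) : Q c f (rho c f) :=
  Nat.sInf_mem (s := {r | Q c f r}) ⟨(F f).card, 0, zero_le, by simp, by simp [kap]⟩

lemma rho_le {c : ℕ} {f : R} {r : ℕ} (h : Q c f r) : rho c f ≤ r := Nat.sInf_le h

lemma rho_mul (c : ℕ) {x y : R} (hx : x ≠ 0) (hy : y ≠ 0) :
    rho c x + rho c y ≤ rho c (x * y) := by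
  classical
  obtain ⟨E, hE, hc, hk⟩ := Q_rho c (x * y)
  rw [F_mul hx hy] at hE hc
  have h1 : E ∩ F x ≤ F x := Multiset.inter_le_right
  have h2 : E - F x ≤ F y := by rw [tsub_le_iff_left]; exact hE
  have h3 : E - F x + E ∩ F x = E := Multiset.sub_add_inter _ _
  have c1 := Multiset.card_le_card h1
  have c2 := Multiset.card_le_card h2
  have c3 := congrArg Multiset.card h3
  rw [Multiset.card_add] at c3 hc
  have r1 : rho c x ≤ (F x).card - (E ∩ F x).card :=
    rho_le ⟨_, h1, by omega, fun a => (kap_mono a Multiset.inter_le_left).trans (hk a)⟩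
  have r2 : rho c y ≤ (F y).card - (E - F x).card :=
    rho_le ⟨_, h2, by omega, fun a => (kap_mono a tsub_le_self).trans (hk a)⟩
  omega

lemma rho_zero {c : ℕ} {f : R} (h : rho c f = 0) : ∀ a, kap a (F f) ≤ c := by
  obtain ⟨E, hE, hc, hk⟩ := Q_rho c f
  have : E = F f := Multiset.eq_of_le_of_card_le hE (by omega)
  rwa [this] at hk

open Classical in
noncomputable def col (d : ℕ) (f : R) : ZMod (d * (d + 1) + 1) × (Fin (d + 1) → Fin (d + 2)) :=
  (((F f).toFinset.card : ZMod (d * (d + 1) + 1)),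
    fun c => ⟨min (rho c f) (d + 1), by omega⟩)

open Classical in
lemma few_outside {d : ℕ} {x y : R} (hx : x ≠ 0) (hy : y ≠ 0) (hs : x + y ≠ 0)
    (hdy : ∀ i, degreeOf i y ≤ d) (hds : ∀ i, degreeOf i (x + y) ≤ d)
    (h1 : (col d x).1 = (col d y).1) (h2 : (col d x).1 = (col d (x + y)).1)
    (h3 : (col d x).1 = (col d (x * y)).1) :
    ((F y).filter (fun u => ∃ b, degreeOf b x = 0 ∧ degreeOf b u ≠ 0)).card ≤ d := by
  classical
  by_contra hc
  push Not at hc
  obtain ⟨W, hW, hWc⟩ : ∃ W ≤ (F y).filter (fun u => ∃ b, degreeOf b x = 0 ∧ degreeOf b u ≠ 0),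
      W.card = d + 1 := by
    obtain ⟨l, hl⟩ := Quot.exists_rep ((F y).filter (fun u => ∃ b, degreeOf b x = 0 ∧ degreeOf b u ≠ 0))
    have hl' : ((l : Multiset R)) = _ := hl
    refine ⟨(l.take (d + 1) : List R), ?_, ?_⟩
    · rw [← hl']; exact Multiset.coe_le.2 (List.take_sublist _ _).subperm
    · rw [← hl'] at hc; simp at hc ⊢; omega
  have hWy : W ≤ F y := hW.trans (Multiset.filter_le _ _)
  have hb : ∀ u ∈ W, ∃ b, degreeOf b x = 0 ∧ degreeOf b u ≠ 0 := fun u hu =>
    (Multiset.mem_filter.1 (Multiset.mem_of_le hW hu)).2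
  choose! b hb1 hb2 using hb
  set A := (F x).toFinset with hA
  set B := (F y).toFinset with hB
  set S := (F (x + y)).toFinset with hS
  have hprod : (F (x * y)).toFinset = A ∪ B := by rw [F_mul hx hy, Multiset.toFinset_add]
  have hSA : S ∩ A = A ∩ B := by
    ext p
    simp only [hA, hB, hS, Finset.mem_inter, Multiset.mem_toFinset, mem_F hx, mem_F hy, mem_F hs]
    constructor
    · rintro ⟨⟨n, h⟩, -, h'⟩; exact ⟨⟨n, h'⟩, n, (dvd_add_right h').1 h⟩
    · rintro ⟨⟨n, h⟩, -, h'⟩; exact ⟨⟨n, dvd_add h h'⟩, n, h⟩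
  have k1 := Finset.card_union_add_card_inter A B
  have k2 := Finset.card_sdiff_add_card_inter S A
  simp only [col] at h1 h2 h3
  rw [hprod] at h3
  have hV : (((S \ A).card : ℕ) : ZMod (d * (d + 1) + 1)) = 0 := by
    have k1' := congrArg (Nat.cast : ℕ → ZMod (d * (d + 1) + 1)) k1
    have k2' := congrArg (Nat.cast : ℕ → ZMod (d * (d + 1) + 1)) k2
    rw [hSA] at k2'
    push_cast at k1' k2'
    have h1' : (A.card : ZMod (d * (d + 1) + 1)) = B.card := by convert h1
    have h2' : (A.card : ZMod (d * (d + 1) + 1)) = S.card := by convert h2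
    have h3' : (A.card : ZMod (d * (d + 1) + 1)) = (A ∪ B).card := by convert h3
    linear_combination k2' - k1' - h2' - h3' + h1'
  obtain ⟨u0, hu0⟩ : ∃ u, u ∈ W := Multiset.card_pos_iff_exists_mem.1 (by omega)
  have hpos : 0 < (S \ A).card := by
    have hy0 : degreeOf (b u0) y ≠ 0 := by
      have := deg_le_of_dvd (b u0) hy ((mem_F hy).1 (Multiset.mem_of_le hWy hu0)).2
      have := hb2 u0 hu0
      omega
    have hs0 : degreeOf (b u0) (x + y) ≠ 0 := by
      rw [add_comm, degreeOf_add_eq_of_degreeOf_lt (by rw [hb1 u0 hu0]; omega)]; exact hy0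
    obtain ⟨p, hp, hp'⟩ := exists_factor _ hs hs0
    refine Finset.card_pos.2 ⟨p, Finset.mem_sdiff.2 ⟨by simpa [hS] using hp, ?_⟩⟩
    intro hpA
    have := deg_le_of_dvd (b u0) hx ((mem_F hx).1 (by simpa [hA] using hpA)).2
    have := hb1 u0 hu0
    omega
  have hbig : d * (d + 1) + 1 ≤ (S \ A).card :=
    Nat.le_of_dvd hpos ((ZMod.natCast_eq_zero_iff _ _).1 hV)
  have hbad : (W.toFinset.biUnion (fun u => S.filter (fun v => degreeOf (b u) v ≠ 0))).card
      ≤ d * (d + 1) := by
    refine Finset.card_biUnion_le.trans ?_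
    calc ∑ u ∈ W.toFinset, (S.filter (fun v => degreeOf (b u) v ≠ 0)).card
        ≤ ∑ _u ∈ W.toFinset, d := by
          apply Finset.sum_le_sum
          intro u _
          refine le_trans ?_ ((kap_F_le (b u) hs).trans (hds _))
          unfold kap
          rw [Multiset.countP_eq_card_filter, hS, ← Multiset.toFinset_filter]
          exact Multiset.toFinset_card_le _
      _ ≤ d * (d + 1) := by
          rw [Finset.sum_const, smul_eq_mul, mul_comm]
          exact Nat.mul_le_mul_left _ (hWc ▸ Multiset.toFinset_card_le _)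
  obtain ⟨v, hv, hvb⟩ := Finset.exists_mem_notMem_of_card_lt_card (lt_of_le_of_lt hbad hbig)
  obtain ⟨hvS, hvA⟩ := Finset.mem_sdiff.1 hv
  have hv1 := (mem_F hs).1 (by simpa [hS] using hvS : v ∈ F (x + y))
  have hv2 : ¬ v ∣ x := fun h => hvA (by simpa [hA] using (mem_F hx).2 ⟨hv1.1, h⟩)
  obtain ⟨a, ha⟩ := exists_var hv1.1
  have hall : ∀ u ∈ W, degreeOf a u ≠ 0 := by
    intro u hu
    have hbv : degreeOf (b u) v = 0 := by
      by_contra h
      exact hvb (Finset.mem_biUnion.2 ⟨u, by simpa using hu, Finset.mem_filter.2 ⟨hvS, h⟩⟩)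
    exact key hv1.1.prime hbv (hb1 u hu) hv2 hv1.2 ((mem_F hy).1 (Multiset.mem_of_le hWy hu)).2
      (hb2 u hu) ha
  have : kap a W = W.card := Multiset.countP_eq_card.2 hall
  have h5 := (kap_mono a hWy).trans ((kap_F_le a hy).trans (hdy a))
  omega

theorem main {d : ℕ} {x y : R} (hx : x ≠ 0) (hy : y ≠ 0) (hs : x + y ≠ 0)
    (hx1 : ∃ a, degreeOf a x ≠ 0)
    (hdy : ∀ i, degreeOf i y ≤ d) (hds : ∀ i, degreeOf i (x + y) ≤ d)
    (hdp : ∀ i, degreeOf i (x * y) ≤ d)
    (h1 : col d x = col d y) (h2 : col d x = col d (x + y))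
    (h3 : col d x = col d (x * y)) : False := by
  classical
  have hxy : x * y ≠ 0 := mul_ne_zero hx hy
  have hfew := few_outside hx hy hs hdy hds (congrArg Prod.fst h1) (congrArg Prod.fst h2)
    (congrArg Prod.fst h3)
  have hex : ∃ c, ∀ a, kap a (F (x * y)) ≤ c := ⟨d, fun a => (kap_F_le a hxy).trans (hdp a)⟩
  have hk := Nat.find_spec hex
  have hsum : ∀ a, kap a (F (x * y)) = kap a (F x) + kap a (F y) := fun a => by
    rw [F_mul hx hy, kap_add]
  have hkd : Nat.find hex ≤ d := Nat.find_min' hex (fun a => (kap_F_le a hxy).trans (hdp a))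
  obtain ⟨a0, ha0⟩ := hx1
  have hk1 : 0 < Nat.find hex := by
    have := hk a0
    have := hsum a0
    have := kap_pos a0 hx ha0
    omega
  obtain ⟨k, hk'⟩ : ∃ k, Nat.find hex = k + 1 := ⟨Nat.find hex - 1, by omega⟩
  obtain ⟨E, hE1, hE2, hE3⟩ : ∃ E ≤ F y, (F y).card ≤ E.card + d ∧
      ∀ u ∈ E, ¬ ∃ b, degreeOf b x = 0 ∧ degreeOf b u ≠ 0 := by
    have := congrArg Multiset.card (Multiset.filter_add_not
        (fun u => ∃ b, degreeOf b x = 0 ∧ degreeOf b u ≠ 0) (F y))
    rw [Multiset.card_add] at this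
    refine ⟨_, Multiset.filter_le _ _, ?_, fun u hu => (Multiset.mem_filter.1 hu).2⟩
    rw [← this, add_comm]
    exact Nat.add_le_add (le_of_eq (by congr)) hfew
  have hQ : Q k y d := by
    refine ⟨E, hE1, hE2, ?_⟩
    intro a
    by_cases ha : degreeOf a x = 0
    · have : kap a E = 0 := by
        unfold kap
        rw [Multiset.countP_eq_zero]
        intro u hu hu'
        exact hE3 u hu ⟨a, ha, hu'⟩
      omega
    · have h4 := hk a
      have h4' := hsum a
      have h5 := kap_pos a hx ha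
      have h6 := kap_mono a hE1
      omega
  have hr := rho_le hQ
  have e1 := congrArg (fun z => ((z.2 ⟨k, by omega⟩ : Fin (d + 2)) : ℕ)) h1
  have e3 := congrArg (fun z => ((z.2 ⟨k, by omega⟩ : Fin (d + 2)) : ℕ)) h3
  simp only [col] at e1 e3
  have hm := rho_mul k hx hy
  have h0 : rho k (x * y) = 0 := by omega
  have := Nat.find_min hex (m := k) (by omega)
  exact this (rho_zero h0)

end Pool.Agent.H.MP_5a868e_co
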